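import Mathlib

namespace Pool.Agent.Results.MP_4e78b4_co.Full

open Finset Pointwise

section K
variable {G : Type} [AddCommGroup G] [Fintype G] [DecidableEq G]

def st (C : Finset G) : Finset G := univ.filter (fun g => ∀ c ∈ C, g + c ∈ C)

lemma mem_st {C : Finset G} {g : G} : g ∈ st C ↔ ∀ c ∈ C, g + c ∈ C := by simp [st]

lemma zero_st (C : Finset G) : (0 : G) ∈ st C := mem_st.2 (by simp)

lemma add_st {C : Finset G} {g h : G} (hg : g ∈ st C) (hh : h ∈ st C) : g + h ∈ st C :=
  mem_st.2 (fun c hc => by rw [add_assoc]; exact mem_st.1 hg _ (mem_st.1 hh c hc))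

lemma neg_st {C : Finset G} {g : G} (hg : g ∈ st C) : -g ∈ st C := by
  have : C.image (g + ·) = C := by
    apply eq_of_subset_of_card_le
    · intro x hx
      obtain ⟨c, hc, rfl⟩ := mem_image.1 hx
      exact mem_st.1 hg c hc
    · rw [card_image_of_injective _ (add_right_injective g)]
  refine mem_st.2 (fun c hc => ?_)
  rw [← this] at hc
  obtain ⟨c', hc', rfl⟩ := mem_image.1 hc
  simpa using hc'

lemma sub_st {C : Finset G} {g h : G} (hg : g ∈ st C) (hh : h ∈ st C) : g - h ∈ st C := by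
  rw [sub_eq_add_neg]; exact add_st hg (neg_st hh)

lemma mv {C : Finset G} {x y : G} (hx : x ∈ C) (h : y - x ∈ st C) : y ∈ C := by
  simpa using mem_st.1 h x hx

def cs (a : G) (H : Finset G) : Finset G := univ.filter (fun x => x - a ∈ H)

lemma mem_cs {a x : G} {H : Finset G} : x ∈ cs a H ↔ x - a ∈ H := by simp [cs]

lemma card_cs (a : G) (H : Finset G) : (cs a H).card = H.card := by
  refine card_bij' (fun x _ => x - a) (fun x _ => x + a) ?_ ?_ ?_ ?_
  · intro x hx; exact mem_cs.1 hx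
  · intro x hx; exact mem_cs.2 (by simpa using hx)
  · intro x _; simp
  · intro x _; simp

lemma dvd_per (C : Finset G) : ∀ (n : ℕ) (P : Finset G), P.card = n → st C ⊆ st P →
    (st C).card ∣ P.card := by
  intro n
  induction n using Nat.strong_induction_on with
  | _ n ih =>
    intro P hP h
    rcases P.eq_empty_or_nonempty with rfl | ⟨a, ha⟩
    · simp
    have h1 : cs a (st C) ⊆ P := fun x hx => mv ha (h (mem_cs.1 hx))
    have h2 := card_sdiff_add_card_eq_card h1
    rw [card_cs] at h2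
    have h3 : 0 < (st C).card := card_pos.2 ⟨0, zero_st C⟩
    have h4 := ih _ (by omega) (P \ cs a (st C)) rfl (by
      intro g hg
      refine mem_st.2 (fun c hc => ?_)
      rw [mem_sdiff] at hc ⊢
      refine ⟨mem_st.1 (h hg) c hc.1, fun h5 => hc.2 (mem_cs.2 ?_)⟩
      have := sub_st (mem_cs.1 h5) hg
      convert this using 1; abel)
    rw [← h2]
    exact dvd_add h4 dvd_rfl

lemma st_left (A B : Finset G) : st A ⊆ st (A + B) := by
  intro g hg
  refine mem_st.2 (fun c hc => ?_)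
  obtain ⟨a, ha, b, hb, rfl⟩ := mem_add.1 hc
  rw [← add_assoc]
  exact add_mem_add (mem_st.1 hg a ha) hb

lemma st_right (A B : Finset G) : st B ⊆ st (A + B) := by rw [add_comm]; exact st_left _ _

lemma st_st (C : Finset G) : st C ⊆ st (st C) :=
  fun _ hg => mem_st.2 (fun _ hc => add_st hg hc)

lemma st_add (S C : Finset G) : st C ⊆ st (S + st C) := (st_st C).trans (st_right _ _)

lemma sub_add_st (S C : Finset G) : S ⊆ S + st C :=
  fun x hx => by simpa using add_mem_add hx (zero_st C)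

lemma add_st_eq {P C : Finset G} (h : st C ⊆ st P) : P + st C = P := by
  refine Subset.antisymm (fun x hx => ?_) (sub_add_st _ _)
  obtain ⟨a, ha, b, hb, rfl⟩ := mem_add.1 hx
  rw [add_comm]; exact mem_st.1 (h hb) a ha

def Kn (A B : Finset G) : Prop :=
  (A + st (A + B)).card + (B + st (A + B)).card ≤ (A + B).card + (st (A + B)).card

def Conv (A B C : Finset G) : Prop := C ⊆ A + B ∧ C.Nonempty ∧
  (A ∩ B).card + ((A ∪ B) + st C).card ≤ C.card + (st C).card

lemma core (A B : Finset G)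
    (ih : ∀ X Y : Finset G, (X + Y).card < (A + B).card → X.Nonempty → Y.Nonempty → Kn X Y)
    (C0 : Finset G) (h0 : Conv A B C0) :
    A.card + B.card ≤ (A + B).card + (st (A + B)).card := by
  classical
  obtain ⟨C, hC, hmin⟩ := exists_min_image (univ.filter (Conv A B)) (fun C => (st C).card)
    ⟨C0, by simpa using h0⟩
  simp only [mem_filter, mem_univ, true_and] at hC hmin
  obtain ⟨hCs, hCn, hC⟩ := hC
  have hIU := card_union_add_card_inter A B
  by_cases hHK : st C ⊆ st (A + B)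
  · have h1 := card_le_card hHK
    have h2 := card_le_card hCs
    have h3 := card_le_card (sub_add_st (A ∪ B) C)
    omega
  by_contra hcon
  obtain ⟨h, hh, hn⟩ := not_subset.1 hHK
  rw [mem_st] at hn
  push Not at hn
  obtain ⟨c, hc, hz⟩ := hn
  obtain ⟨a, ha, b, hb, rfl⟩ := mem_add.1 hc
  have noz : ∀ x, x - (a + b) ∈ st C → ¬ ∀ y, y - x ∈ st C → y ∈ A + B := by
    intro x hx hall
    refine hz (hall _ ?_)
    have := sub_st hh hx
    convert this using 1; abel
  have F : ∀ X Y : Finset G, X ⊆ A → Y ⊆ B → X.Nonempty → Y.Nonempty →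
      (∀ x ∈ X + Y, x - (a + b) ∈ st C) →
      st (X + Y) ⊆ st C ∧ C.card + (X + Y).card ≤ (A + B).card ∧ Kn X Y ∧
      ((A ∪ B) + st C).card + (X + st (X + Y)).card + (Y + st (X + Y)).card
        < (st C).card + ((A ∪ B) + st (X + Y)).card := by
    intro X Y hX hY hXn hYn hD
    have hDs : X + Y ⊆ A + B := add_subset_add hX hY
    obtain ⟨x0, hx0⟩ := hXn.add hYn
    have hdis : Disjoint C (X + Y) := disjoint_left.2 (fun x hx hx' =>
      noz x (hD x hx') (fun y hy => hCs (mv hx hy)))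
    have hU : C ∪ (X + Y) ⊆ A + B := union_subset hCs hDs
    have hcard := card_union_of_disjoint hdis
    have hle := card_le_card hU
    have hpos := card_pos.2 hCn
    have hsub : st (X + Y) ⊆ st C := by
      intro g hg
      have := sub_st (hD _ (mem_st.1 hg x0 hx0)) (hD _ hx0)
      convert this using 1; abel
    have hlt : (st (X + Y)).card < (st C).card := by
      refine card_lt_card ⟨hsub, fun h' => noz x0 (hD _ hx0) (fun y hy => hDs (mv hx0 (h' hy)))⟩
    have heq : st (C ∪ (X + Y)) = st (X + Y) := by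
      apply Subset.antisymm
      · intro g hg
        refine mem_st.2 (fun x hx => ?_)
        rcases mem_union.1 (mem_st.1 hg x (mem_union_right _ hx)) with h1 | h1
        · refine absurd (fun y hy => hU ?_) (noz x (hD x hx))
          have h2 : g + y ∈ C := mv h1 (by simpa using hy)
          simpa using mem_st.1 (neg_st hg) _ (mem_union_left _ h2)
        · exact h1
      · intro g hg
        refine mem_st.2 (fun x hx => ?_)
        rcases mem_union.1 hx with h1 | h1
        · exact mem_union_left _ (mem_st.1 (hsub hg) x h1)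
        · exact mem_union_right _ (mem_st.1 hg x h1)
    have hk := ih X Y (by omega) hXn hYn
    refine ⟨hsub, by omega, hk, ?_⟩
    by_contra hge
    have := hmin (C ∪ (X + Y)) ⟨hU, hCn.mono subset_union_left, by
      rw [heq]; unfold Kn at hk; omega⟩
    rw [heq] at this
    omega
  have hsum : ∀ (p q : G), p + q = a + b → ∀ x ∈ (A ∩ cs p (st C)) + (B ∩ cs q (st C)),
      x - (a + b) ∈ st C := by
    intro p q hpq x hx
    obtain ⟨u, hu, v, hv, rfl⟩ := mem_add.1 hx
    have := add_st (mem_cs.1 (mem_inter.1 hu).2) (mem_cs.1 (mem_inter.1 hv).2)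
    rw [← hpq]
    convert this using 1; abel
  have haa : ∀ p : G, p ∈ cs p (st C) := fun p => mem_cs.2 (by simpa using zero_st C)
  obtain ⟨s1, c1, k1, f1⟩ := F (A ∩ cs a (st C)) (B ∩ cs b (st C)) inter_subset_left
    inter_subset_left ⟨a, mem_inter.2 ⟨ha, haa a⟩⟩ ⟨b, mem_inter.2 ⟨hb, haa b⟩⟩ (hsum a b rfl)
  have csub : ∀ p ∈ A ∪ B, cs p (st C) ⊆ (A ∪ B) + st C := by
    intro p hp x hx
    simpa using add_mem_add hp (mem_cs.1 hx)
  have deg : ∀ p ∈ A ∪ B, ¬ ∀ x ∈ A ∪ B, x ∈ cs p (st C) →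
      x ∈ (A ∩ cs a (st C)) ∪ (B ∩ cs b (st C)) := by
    intro p hp hall
    set H1 := st ((A ∩ cs a (st C)) + (B ∩ cs b (st C))) with hH1
    have e1 : cs p (st C) ∩ ((A ∪ B) + H1) ⊆ (A ∩ cs a (st C) + H1) ∪ (B ∩ cs b (st C) + H1) := by
      intro x hx
      obtain ⟨hx1, hx2⟩ := mem_inter.1 hx
      obtain ⟨u, hu, g, hg, rfl⟩ := mem_add.1 hx2
      have hu' : u ∈ cs p (st C) := mem_cs.2 (by
        have := sub_st (mem_cs.1 hx1) (s1 hg)
        convert this using 1; abel)
      rcases mem_union.1 (hall u hu hu') with h1 | h1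
      · exact mem_union_left _ (add_mem_add h1 hg)
      · exact mem_union_right _ (add_mem_add h1 hg)
    have e2 := (card_le_card e1).trans (card_union_le _ _)
    have e3 : cs p (st C) ∪ ((A ∪ B) + H1) ⊆ (A ∪ B) + st C :=
      union_subset (csub p hp) (add_subset_add_left s1)
    have e4 := card_le_card e3
    have e5 := card_union_add_card_inter (cs p (st C)) ((A ∪ B) + H1)
    rw [card_cs] at e5
    omega
  have nA : (A ∩ cs b (st C)).Nonempty := by
    by_contra hne
    refine deg b (mem_union_right _ hb) (fun x hx hx' => ?_)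
    rcases mem_union.1 hx with h1 | h1
    · exact absurd ⟨x, mem_inter.2 ⟨h1, hx'⟩⟩ hne
    · exact mem_union_right _ (mem_inter.2 ⟨h1, hx'⟩)
  have nB : (B ∩ cs a (st C)).Nonempty := by
    by_contra hne
    refine deg a (mem_union_left _ ha) (fun x hx hx' => ?_)
    rcases mem_union.1 hx with h1 | h1
    · exact mem_union_left _ (mem_inter.2 ⟨h1, hx'⟩)
    · exact absurd ⟨x, mem_inter.2 ⟨h1, hx'⟩⟩ hne
  have dis : Disjoint (cs a (st C)) (cs b (st C)) := by
    refine disjoint_left.2 (fun y hy hy' => ?_)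
    refine deg a (mem_union_left _ ha) (fun x hx hx' => ?_)
    rcases mem_union.1 hx with h1 | h1
    · exact mem_union_left _ (mem_inter.2 ⟨h1, hx'⟩)
    · refine mem_union_right _ (mem_inter.2 ⟨h1, mem_cs.2 ?_⟩)
      have := add_st (sub_st (mem_cs.1 hx') (mem_cs.1 hy)) (mem_cs.1 hy')
      convert this using 1; abel
  obtain ⟨s2, c2, k2, f2⟩ := F (A ∩ cs b (st C)) (B ∩ cs a (st C)) inter_subset_left
    inter_subset_left nA nB (hsum b a (add_comm _ _))
  have G1 : ∀ X Y : Finset G, st (X + Y) ⊆ st C → Kn X Y →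
      ((A ∪ B) + st C).card + (X + st (X + Y)).card + (Y + st (X + Y)).card
        < (st C).card + ((A ∪ B) + st (X + Y)).card →
      2 * (X.card + Y.card) ≤ (st C).card + (X + Y).card := by
    intro X Y s k f
    have m1 := card_le_card (add_subset_add_left (s := A ∪ B) s)
    have m2 := card_le_card (sub_add_st X (X + Y))
    have m3 := card_le_card (sub_add_st Y (X + Y))
    have d1 := dvd_per (X + Y) _ _ rfl (st_add X (X + Y))
    have d2 := dvd_per (X + Y) _ _ rfl (st_add Y (X + Y))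
    have d3 := dvd_per (X + Y) _ _ rfl (s.trans (st_st C))
    have d4 := Nat.le_of_dvd (by omega) (Nat.dvd_sub d3 (dvd_add d1 d2))
    unfold Kn at k
    omega
  have g1 := G1 _ _ s1 k1 f1
  have g2 := G1 _ _ s2 k2 f2
  have e1 : (cs a (st C) ∪ cs b (st C)) ∩ (A ∪ B) ⊆ ((A ∩ cs a (st C)) ∪ (B ∩ cs b (st C))) ∪
      ((A ∩ cs b (st C)) ∪ (B ∩ cs a (st C))) := by
    intro x hx
    simp only [mem_inter, mem_union] at hx ⊢
    tauto
  have e2 := (card_le_card e1).trans ((card_union_le _ _).trans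
    (add_le_add (card_union_le _ _) (card_union_le _ _)))
  have e3 : (cs a (st C) ∪ cs b (st C)) ∪ (A ∪ B) ⊆ (A ∪ B) + st C :=
    union_subset (union_subset (csub a (mem_union_left _ ha)) (csub b (mem_union_right _ hb)))
      (sub_add_st _ _)
  have e4 := card_le_card e3
  have e5 := card_union_add_card_inter (cs a (st C) ∪ cs b (st C)) (A ∪ B)
  rw [card_union_of_disjoint dis, card_cs, card_cs] at e5
  omega

lemma st_shift (X : Finset G) (t : G) : st (X + {t}) = st X := by
  refine Subset.antisymm ?_ (st_left _ _)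
  have : X = X + {t} + {-t} := by
    rw [add_assoc, singleton_add_singleton, add_neg_cancel]; exact (add_zero X).symm
  conv_rhs => rw [this]
  exact st_left _ _

theorem kneser : ∀ (n : ℕ) (A B : Finset G), (A + B).card = n → A.Nonempty → B.Nonempty →
    Kn A B := by
  intro n
  induction n using Nat.strong_induction_on with
  | _ n ih =>
    have inner : ∀ (m : ℕ) (A B : Finset G), (A + B).card = n → A.card = m → A.Nonempty →
        B.Nonempty → st (A + B) ⊆ st A → st (A + B) ⊆ st B →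
        A.card + B.card ≤ (A + B).card + (st (A + B)).card := by
      intro m
      induction m using Nat.strong_induction_on with
      | _ m ihm =>
        intro A B hn hm hA hB pA pB
        obtain ⟨a, ha⟩ := hA
        by_cases hall : A ⊆ cs a (st (A + B))
        · have h1 := card_le_card hall
          rw [card_cs] at h1
          have h2 := card_le_card_add_left (s := A) (t := B) ⟨a, ha⟩
          omega
        obtain ⟨a', ha', hn'⟩ := not_subset.1 hall
        have h3 : a' - a ∉ st B := fun h => hn' (mem_cs.2 (st_right A B h))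
        rw [mem_st] at h3
        push Not at h3
        obtain ⟨b, hb, hb'⟩ := h3
        set B' := B + {a - b} with hB'
        have q1 : A + B' = A + B + {a - b} := (add_assoc _ _ _).symm
        have q2 : (A + B').card = (A + B).card := by rw [q1, card_add_singleton]
        have q3 : st (A + B') = st (A + B) := by rw [q1, st_shift]
        have q4 : B'.card = B.card := card_add_singleton _ _
        have q5 : a ∈ B' := by
          simpa using add_mem_add hb (mem_singleton_self (a - b))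
        have q6 : a' ∉ B' := by
          intro h
          obtain ⟨u, hu, v, hv, rfl⟩ := mem_add.1 h
          rw [mem_singleton.1 hv] at hb'
          exact hb' (by convert hu using 1; abel)
        have q7 : st (A + B) ⊆ st B' := pB.trans (st_left _ _)
        rw [← q2, ← q3, ← q4]
        have hI : (A ∩ B').Nonempty := ⟨a, mem_inter.2 ⟨ha, q5⟩⟩
        have hU : (A ∪ B').Nonempty := ⟨a, mem_union_left _ ha⟩
        have hs : A ∩ B' + (A ∪ B') ⊆ A + B' := inter_add_union_subset
        refine core A B' (fun X Y h => ih _ (by omega) X Y rfl) (A ∩ B' + (A ∪ B'))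
          ⟨hs, hI.add hU, ?_⟩
        rcases (card_le_card hs).lt_or_eq with hlt | heq
        · have k := ih _ (by omega) _ _ rfl hI hU
          have := card_le_card (sub_add_st (A ∩ B') (A ∩ B' + (A ∪ B')))
          unfold Kn at k
          omega
        · have e : A ∩ B' + (A ∪ B') = A + B' := eq_of_subset_of_card_le hs heq.ge
          have pI : st (A ∩ B' + (A ∪ B')) ⊆ st (A ∩ B') := by
            rw [e, q3]
            intro g hg
            exact mem_st.2 (fun c hc => mem_inter.2 ⟨mem_st.1 (pA hg) c (mem_inter.1 hc).1,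
              mem_st.1 (q7 hg) c (mem_inter.1 hc).2⟩)
          have pU : st (A ∩ B' + (A ∪ B')) ⊆ st (A ∪ B') := by
            rw [e, q3]
            intro g hg
            refine mem_st.2 (fun c hc => ?_)
            rcases mem_union.1 hc with h | h
            · exact mem_union_left _ (mem_st.1 (pA hg) c h)
            · exact mem_union_right _ (mem_st.1 (q7 hg) c h)
          have hlt : (A ∩ B').card < A.card :=
            card_lt_card ⟨inter_subset_left, fun h => q6 (mem_inter.1 (h ha')).2⟩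
          rw [add_st_eq pU]
          exact ihm _ (by omega) _ _ (by omega) rfl hI hU pI pU
    intro A B hn hA hB
    have e : (A + st (A + B)) + (B + st (A + B)) = A + B := by
      rw [add_add_add_comm, ← add_assoc, add_st_eq Subset.rfl, add_st_eq Subset.rfl]
    have := inner _ (A + st (A + B)) (B + st (A + B)) (by rw [e, hn]) rfl
      (hA.mono (sub_add_st _ _)) (hB.mono (sub_add_st _ _)) (by rw [e]; exact st_add _ _)
      (by rw [e]; exact st_add _ _)
    rw [e] at this
    exact this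


def pw (B : Finset G) : ℕ → Finset G
  | 0 => {0}
  | j + 1 => pw B j + B

lemma pw_add (B : Finset G) (i j : ℕ) : pw B (i + j) = pw B i + pw B j := by
  induction j with
  | zero => exact (add_zero (pw B i)).symm
  | succ j ih => rw [← add_assoc, pw, pw, ih, add_assoc]

lemma pw_ne {B : Finset G} (hB : B.Nonempty) (j : ℕ) : (pw B j).Nonempty := by
  induction j with
  | zero => exact singleton_nonempty _
  | succ j ih => exact ih.add hB

lemma step (Z P S R : Finset G) (hP : P.Nonempty) (hS : S.Nonempty) (e : Z = P + S + R) :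
    (P + st Z).card + (S + st Z).card ≤ (P + S + st Z).card + (st Z).card := by
  have e1 : (P + st Z) + (S + st Z) = P + S + st Z := by
    rw [add_add_add_comm, add_st_eq (st_st _)]
  have k := kneser _ (P + st Z) (S + st Z) rfl (hP.mono (sub_add_st _ _)) (hS.mono (sub_add_st _ _))
  unfold Kn at k
  rw [e1] at k
  have h2 : st (P + S + st Z) ⊆ st Z := by
    have h9 := st_left (P + S + st Z) R
    rwa [add_right_comm (P + S), ← e, add_st_eq Subset.rfl] at h9
  have h3 := card_le_card h2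
  have h4 := card_le_card (sub_add_st (P + st Z) (P + S + st Z))
  have h5 := card_le_card (sub_add_st (S + st Z) (P + S + st Z))
  omega

lemma iter2 (Z P S : Finset G) (hP : P.Nonempty) (hS : S.Nonempty) (j : ℕ) : ∀ R : Finset G,
    Z = P + pw S j + R →
    (P + st Z).card + j * (S + st Z).card ≤ (P + pw S j + st Z).card + j * (st Z).card := by
  induction j with
  | zero =>
    intro R _
    have : P + pw S 0 = P := add_zero P
    rw [this]; omega
  | succ j ih =>
    intro R e
    have h1 := ih (S + R) (by rw [e, pw]; simp only [add_assoc])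
    have h2 := step Z (P + pw S j) S R (hP.add (pw_ne hS j)) hS (by rw [e, pw]; simp only [add_assoc])
    rw [pw, ← add_assoc P, add_mul, add_mul]
    omega

lemma pw_plus (A B : Finset G) (j : ℕ) : pw (A + B) j = pw A j + pw B j := by
  induction j with
  | zero => exact (add_zero (pw A 0)).symm
  | succ j ih => rw [pw, pw, pw, ih, add_add_add_comm]

lemma pw_neg (A : Finset G) (j : ℕ) : pw (-A) j = -pw A j := by
  induction j with
  | zero => simp [pw]
  | succ j ih => rw [pw, pw, ih, neg_add]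

lemma card_negst (S Z : Finset G) : (-S + st Z).card = (S + st Z).card := by
  have : -st Z = st Z := by
    ext x
    rw [mem_neg']
    exact ⟨fun h => by simpa using neg_st h, neg_st⟩
  rw [← card_neg (S + st Z), neg_add, this]

end K

/-- the noise set `{0, 1, ..., c-1}` modulo `n` -/
def noise (n c : ℕ) : Finset (ZMod n) := (range c).image (fun i : ℕ => (i : ZMod n))

def chi (n k l c : ℕ) : ℤ := ((n : ℤ) + 2 * (c - 2)) / (k + l) - (c - 2)

def res (n k l c : ℕ) : ℤ := (-(k : ℤ) * chi n k l c - (k - 1) * (c - 2)) % (Nat.gcd n (k - l) : ℕ)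

def ell (n k l c : ℕ) : ℤ := ((n : ℤ) + 2 * (c - 2) - res n k l c) / (k + l) - (c - 2)

variable {n : ℕ} [NeZero n]

lemma exit (P : Finset (ZMod n)) {x y : ZMod n} (hx : x ∈ P) (hy : y ∉ P) :
    ∃ i : ℕ, (∀ j ≤ i, x + (j : ℕ) ∈ P) ∧ x + (i + 1 : ℕ) ∉ P := by
  classical
  have ex : ∃ i : ℕ, x + (i : ℕ) ∉ P := ⟨(y - x).val, by simpa using hy⟩
  have h1 := Nat.find_spec ex
  have h0 : Nat.find ex ≠ 0 := by intro h; rw [h] at h1; exact h1 (by simpa using hx)
  obtain ⟨i, hi⟩ := Nat.exists_eq_succ_of_ne_zero h0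
  refine ⟨i, fun j hj => ?_, by rw [hi] at h1; exact h1⟩
  have := Nat.find_min ex (m := j) (by omega)
  simpa using this

lemma reach (Z S : Finset (ZMod n)) (a : ZMod n) (t : ℕ)
    (h : ∀ i ≤ t, ∃ x ∈ S, x - (a + (i : ℕ)) ∈ st Z) (j : ℕ) :
    ∀ w ≤ j * t, ∃ x ∈ pw S j, x - ((j : ZMod n) * a + (w : ℕ)) ∈ st Z := by
  induction j with
  | zero =>
    intro w hw
    obtain rfl : w = 0 := by omega
    exact ⟨0, mem_singleton_self _, by simpa using zero_st Z⟩
  | succ j ih =>
    intro w hw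
    rw [add_mul, one_mul] at hw
    obtain ⟨x, hx, hx'⟩ := ih (w - min w t) (by omega)
    obtain ⟨y, hy, hy'⟩ := h (min w t) (by omega)
    refine ⟨x + y, add_mem_add hx hy, ?_⟩
    have := add_st hx' hy'
    have e : w = (w - min w t) + min w t := by omega
    generalize w - min w t = p at *
    generalize min w t = p' at *
    subst e
    convert this using 1
    push_cast; ring

lemma nsub (P : Finset (ZMod n)) {i j : ℕ} (h : i ≤ j) : P + noise n i ⊆ P + noise n j :=
  add_subset_add_left (image_subset_image (range_subset_range.2 h))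

lemma nup (P : Finset (ZMod n)) {j : ℕ} {b : ZMod n} (h : b ∈ P + noise n j) :
    b + 1 ∈ P + noise n (j + 1) := by
  obtain ⟨x, hx, y, hy, rfl⟩ := mem_add.1 h
  obtain ⟨i, hi, rfl⟩ := mem_image.1 hy
  rw [add_assoc]
  exact add_mem_add hx (mem_image.2 ⟨i + 1, by simpa using hi, by push_cast; rfl⟩)

lemma two (Z P Q : Finset (ZMod n)) (hP : st Z ⊆ st P) (hQ : st Z ⊆ st Q) (h : P ⊆ Q)
    {b : ZMod n} (hb : b ∈ Q) (hb' : b ∉ P) : P.card + (st Z).card ≤ Q.card := by
  have d : Disjoint P (cs b (st Z)) := disjoint_left.2 (fun y hy hy' =>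
    hb' (mv hy (hP (by simpa using neg_st (mem_cs.1 hy')))))
  rw [← card_cs b (st Z), ← card_union_of_disjoint d]
  exact card_le_card (union_subset h (fun y hy => mv hb (hQ (mem_cs.1 hy))))

lemma grow (Z P : Finset (ZMod n)) (hP : st Z ⊆ st P) (hne : P.Nonempty) (y : ZMod n) (j : ℕ) :
    y ∉ P + noise n (j + 2) →
    (P + noise n 2).card + j * (st Z).card ≤ (P + noise n (j + 2)).card := by
  induction j with
  | zero => intro _; simp
  | succ j ih =>
    intro hy
    have hy' : y ∉ P + noise n (j + 2) := fun h => hy (nsub P (by omega) h)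
    obtain ⟨x, hx⟩ := hne.add (show (noise n (j + 2)).Nonempty from
      ⟨_, mem_image.2 ⟨0, by simp, rfl⟩⟩)
    obtain ⟨i, h1, h2⟩ := exit _ hx hy'
    have h3 := nup P (h1 i le_rfl)
    have := two Z _ _ (hP.trans (st_left P _)) (hP.trans (st_left P _))
      (nsub P (show j + 2 ≤ j + 2 + 1 by omega)) h3 (by rw [add_assoc]; exact_mod_cast h2)
    have h4 := ih hy'
    rw [add_mul, one_mul, show j + 1 + 2 = j + 2 + 1 by omega]
    omega

lemma dmem (Z : Finset (ZMod n)) (d : ℕ) (hd : n = (st Z).card * d) (y : ℤ) :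
    ((d * y : ℤ) : ZMod n) ∈ st Z := by
  let H : AddSubgroup (ZMod n) :=
    { carrier := {x | x ∈ st Z}
      add_mem' := add_st
      zero_mem' := zero_st Z
      neg_mem' := neg_st }
  have h1 : Nat.card H = (st Z).card := by
    exact (Nat.subtype_card (st Z) (fun x => Iff.rfl))
  have h2 := H.index_mul_card
  rw [h1, Nat.card_zmod] at h2
  have hh : 0 < (st Z).card := card_pos.2 ⟨0, zero_st _⟩
  have h3 : H.index = d := Nat.eq_of_mul_eq_mul_right hh (by rw [h2, mul_comm]; exact hd)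
  have h4 := H.nsmul_index_mem (y : ZMod n)
  rw [h3, nsmul_eq_mul] at h4
  push_cast
  exact h4

lemma arith (n l g e h d t q w a cA : ℕ) (hh : 0 < h) (hd : n = h * d)
    (b1 : (2 * l + g + 3) * (t + 1) + (2 * l + g + 1) * (e + 1) ≤ d + (2 * l + g + 1))
    (hAt : (cA : ℤ) ≤ h * (t + 1)) (hδ : 0 < Nat.gcd n (l + 1 + g + 1 - (l + 1)))
    (hδ2 : Nat.gcd n (l + 1 + g + 1 - (l + 1)) ≤ g + 1)
    (r1 : res n (l + 1 + g + 1) (l + 1) (e + 2) < (Nat.gcd n (l + 1 + g + 1 - (l + 1)) : ℕ))
    (a1 : (n : ℤ) + 2 * e - res n (l + 1 + g + 1) (l + 1) (e + 2) < (cA + e) * (2 * l + g + 3))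
    (hq : (l + 1 + g + 1) * t + (l + 1 + g) * (e + 1) + (l + 1) * t + l * (e + 1) < q)
    (hmod : q < d)
    (hdm : d * w + q = (g + 1) * a + (l + 1 + g + 1) * t + (l + 1 + g) * (e + 1)) : False := by
  have hm : (0 : ℤ) < ((l + 1 + g + 1 : ℕ) : ℤ) + ((l + 1 : ℕ) : ℤ) := by positivity
  have hnz : (n : ℤ) = h * d := by exact_mod_cast hd
  have hl0 : (0 : ℤ) ≤ l := by positivity
  have b5 : (1 : ℤ) ≤ h := by exact_mod_cast hh
  have z1 : ((2 * l + g + 3) * (t + 1) + (2 * l + g + 1) * e : ℤ) ≤ d := by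
    have : (2 * l + g + 3) * (t + 1) + (2 * l + g + 1) * e ≤ d := by
      linarith
    exact_mod_cast this
  have z2 := mul_le_mul_of_nonneg_left z1 (show (0 : ℤ) ≤ h by positivity)
  have z3 := mul_le_mul_of_nonneg_right b5 (show (0 : ℤ) ≤ (2 * l + g + 1) * e by positivity)
  have zδ : ((Nat.gcd n (l + 1 + g + 1 - (l + 1)) : ℕ) : ℤ) ≤ g + 1 := by exact_mod_cast hδ2
  have z4 : (cA : ℤ) = h * (t + 1) := by
    by_contra hne'
    have : (cA : ℤ) + 1 ≤ h * (t + 1) := by omega
    have := mul_le_mul_of_nonneg_right this (show (0 : ℤ) ≤ 2 * l + g + 3 by positivity)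
    linarith
  have z5 : chi n (l + 1 + g + 1) (l + 1) (e + 2) = h * (t + 1) := by
    have : ((n : ℤ) + 2 * ((e + 2 : ℕ) - 2)) / (((l + 1 + g + 1 : ℕ) : ℤ) + ((l + 1 : ℕ) : ℤ))
        = h * (t + 1) + e := by
      apply le_antisymm
      · apply Int.le_of_lt_add_one
        rw [Int.ediv_lt_iff_lt_mul hm]
        rw [z4] at a1
        push_cast; linarith
      · rw [Int.le_ediv_iff_mul_le hm]
        push_cast; linarith
    unfold chi
    rw [this]; push_cast; ring
  have hq' : ((l + 1 + g + 1) * t + (l + 1 + g) * (e + 1) + (l + 1) * t + l * (e + 1) : ℤ) < q := by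
    exact_mod_cast hq
  have hmod' : (q : ℤ) < d := by exact_mod_cast hmod
  have hdm' : (d * w + q : ℤ) = (g + 1) * a + (l + 1 + g + 1) * t + (l + 1 + g) * (e + 1) := by
    exact_mod_cast hdm
  have z6 : res n (l + 1 + g + 1) (l + 1) (e + 2)
      ≤ h * (d - 1 - q) + (l + 1 + g) * e * (h - 1) := by
    have dn : ((Nat.gcd n (l + 1 + g + 1 - (l + 1)) : ℕ) : ℤ) ∣ n :=
      Int.natCast_dvd_natCast.2 (Nat.gcd_dvd_left _ _)
    have dg : ((Nat.gcd n (l + 1 + g + 1 - (l + 1)) : ℕ) : ℤ) ∣ (g + 1 : ℤ) := by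
      have := Int.natCast_dvd_natCast.2 (Nat.gcd_dvd_right n (l + 1 + g + 1 - (l + 1)))
      rw [show l + 1 + g + 1 - (l + 1) = g + 1 by omega] at this ⊢
      exact_mod_cast this
    have e1 : res n (l + 1 + g + 1) (l + 1) (e + 2) = (h * (d - 1 - q) + (l + 1 + g) * e * (h - 1))
        % (Nat.gcd n (l + 1 + g + 1 - (l + 1)) : ℕ) := by
      unfold res
      rw [z5]
      apply Int.ModEq.eq
      rw [Int.modEq_iff_dvd]
      have := dvd_sub (Dvd.dvd.mul_right dn (w + 1)) (Dvd.dvd.mul_right dg (a * h))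
      obtain ⟨y, hy⟩ := this
      refine ⟨y, ?_⟩
      rw [← hy]
      push_cast
      linear_combination (-(h : ℤ)) * hdm' - (w + 1 : ℤ) * hnz
    rw [e1]
    have nn : (0 : ℤ) ≤ h * (d - 1 - q) + (l + 1 + g) * e * (h - 1) :=
      add_nonneg (mul_nonneg (by positivity) (by omega)) (mul_nonneg (by positivity) (by omega))
    have hp : (0 : ℤ) < (Nat.gcd n (l + 1 + g + 1 - (l + 1)) : ℕ) := by exact_mod_cast hδ
    have := mul_nonneg hp.le (Int.ediv_nonneg nn hp.le)
    rw [Int.emod_def]; linarith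
  have z7 := mul_le_mul_of_nonneg_left (Int.add_one_le_of_lt hq') (show (0 : ℤ) ≤ h by positivity)
  have z8 : (0 : ℤ) ≤ l * e * (h - 1) := mul_nonneg (by positivity) (by omega)
  rw [z4] at a1
  linarith


theorem upper (n k l c : ℕ) [NeZero n] (hl : 1 ≤ l) (hk : l < k) (hc : 2 ≤ c)
    (A : Finset (ZMod n))
    (hA : Disjoint (pw A k + pw (noise n c) (k - 1)) (pw A l + pw (noise n c) (l - 1))) :
    (A.card : ℤ) ≤ max 0 (ell n k l c) := by
  rcases A.eq_empty_or_nonempty with rfl | hne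
  · simp
  refine le_max_of_le_right ?_
  by_contra hlt
  obtain ⟨e, rfl⟩ : ∃ e, c = e + 2 := ⟨c - 2, by omega⟩
  obtain ⟨l, rfl⟩ : ∃ e, l = e + 1 := ⟨l - 1, by omega⟩
  obtain ⟨g, rfl⟩ : ∃ e, k = l + 1 + e + 1 := ⟨k - l - 2, by omega⟩
  simp only [Nat.add_sub_cancel] at hA
  set C := noise n (e + 2) with hC
  have hCn : C.Nonempty := ⟨_, mem_image.2 ⟨0, by simp, rfl⟩⟩
  obtain ⟨Z, hZ⟩ : ∃ Z, Z = pw A (l + 1 + g + 1) + pw C (l + 1 + g) + -(pw A (l + 1) + pw C l) :=
    ⟨_, rfl⟩
  have h0 : (0 : ZMod n) ∉ Z := by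
    intro h
    rw [hZ] at h
    obtain ⟨x, hx, y, hy, hxy⟩ := mem_add.1 h
    rw [mem_neg', show -y = x by linear_combination -hxy] at hy
    exact disjoint_left.1 hA hx hy
  have hZ' : Z = A + -A + pw (A + C) (l + 1 + g) + pw (-(A + C)) l := by
    rw [hZ, pw_neg, pw_plus, pw_plus, pw, pw, neg_add, neg_add, neg_add]
    generalize -A = A'
    generalize -pw A l = B'
    generalize -pw C l = C'
    generalize pw A (l + 1 + g) = A''
    generalize pw C (l + 1 + g) = C''
    simp only [add_assoc, add_comm, add_left_comm]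
  have hD := hne.add hCn
  have k1 := step Z A (-A) _ hne hne.neg (by rw [hZ', add_assoc])
  have k2 := iter2 Z (A + -A) (A + C) (hne.add hne.neg) hD (l + 1 + g) _ hZ'
  have k3 := iter2 Z (A + -A + pw (A + C) (l + 1 + g)) (-(A + C))
    ((hne.add hne.neg).add (pw_ne hD _)) hD.neg l 0 (by rw [add_zero]; exact hZ')
  rw [← hZ', add_st_eq Subset.rfl, card_negst] at k3
  rw [card_negst] at k1
  have k4 := two Z Z univ Subset.rfl (fun g _ => mem_st.2 (by simp)) (subset_univ _) (mem_univ 0) h0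
  rw [card_univ, ZMod.card] at k4
  have pP := st_add A Z
  have hPn : (A + st Z).Nonempty := hne.mono (sub_add_st _ _)
  have eD : A + C + st Z = A + st Z + C := add_right_comm _ _ _
  obtain ⟨y, hy⟩ : ∃ y, y ∉ A + st Z + C := by
    by_contra hall
    push Not at hall
    have e1 : Z = (A + st Z + C) + (A + -A + pw (A + C) (l + g) + pw (-(A + C)) l) := by
      conv_lhs => rw [← add_st_eq (Subset.rfl : st Z ⊆ st Z)]
      generalize st Z = W
      rw [hZ', show l + 1 + g = l + g + 1 by omega, pw]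
      ac_rfl
    obtain ⟨u, hu⟩ := (((hne.add hne.neg).add (pw_ne hD (l + g))).add (pw_ne hD.neg l))
    apply h0
    rw [e1]
    simpa using add_mem_add (hall (-u)) hu
  have k5 : _ ≤ (A + st Z + C).card := grow Z _ pP hPn y e hy
  rw [eD] at k2 k3
  obtain ⟨t, ht⟩ := dvd_per Z _ _ rfl pP
  obtain ⟨d, hd⟩ := dvd_per Z _ univ rfl (fun g _ => mem_st.2 (by simp))
  rw [card_univ, ZMod.card] at hd
  have hh : 0 < (st Z).card := card_pos.2 ⟨0, zero_st _⟩
  have hAP := card_le_card (sub_add_st A Z)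
  have P1 : A + st Z ⊆ A + st Z + noise n 2 := fun x hx => by
    simpa using add_mem_add hx (show (0 : ZMod n) ∈ noise n 2 from mem_image.2 ⟨0, by simp, by simp⟩)
  have P2 : ∀ x ∈ A + st Z, x + 1 ∈ A + st Z + noise n 2 := fun x hx =>
    add_mem_add hx (mem_image.2 ⟨1, by simp, by simp⟩)
  have hy1 : y ∉ A + st Z := fun h => hy (nsub _ (by omega) (P1 h))
  obtain ⟨x0, hx0⟩ := hPn
  obtain ⟨i0, i1, i2⟩ := exit _ hx0 hy1
  obtain ⟨b, hb⟩ : ∃ b : ZMod n, b = x0 + (i0 + 1 : ℕ) := ⟨_, rfl⟩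
  rw [← hb] at i2
  have hb1 : b + -1 ∈ A + st Z := by
    have := i1 i0 le_rfl
    rw [hb]; push_cast; convert this using 1; ring
  have hb2 : b ∈ A + st Z + noise n 2 := by simpa using P2 _ hb1
  have pQ : st Z ⊆ st (A + st Z + noise n 2) := pP.trans (st_left _ _)
  have k6 := two Z _ _ pP pQ P1 hb2 i2
  -- arithmetic facts on chi, res, ell
  have hm : (0 : ℤ) < ((l + 1 + g + 1 : ℕ) : ℤ) + ((l + 1 : ℕ) : ℤ) := by positivity
  have hδ : 0 < Nat.gcd n (l + 1 + g + 1 - (l + 1)) :=
    Nat.gcd_pos_of_pos_left _ (Nat.pos_of_ne_zero (NeZero.ne n))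
  have hδ2 : Nat.gcd n (l + 1 + g + 1 - (l + 1)) ≤ g + 1 :=
    Nat.le_of_dvd (by omega) (by
      rw [show l + 1 + g + 1 - (l + 1) = g + 1 by omega]; exact Nat.gcd_dvd_right _ _)
  have r1 : res n (l + 1 + g + 1) (l + 1) (e + 2) < (Nat.gcd n (l + 1 + g + 1 - (l + 1)) : ℕ) :=
    Int.emod_lt_of_pos _ (by exact_mod_cast hδ)
  have a1 : (n : ℤ) + 2 * e - res n (l + 1 + g + 1) (l + 1) (e + 2)
      < (A.card + e) * (2 * l + g + 3) := by
    have := (Int.ediv_lt_iff_lt_mul hm).1 (show ((n : ℤ) + 2 * ((e + 2 : ℕ) - 2) -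
      res n (l + 1 + g + 1) (l + 1) (e + 2)) / _ < A.card + e by
        unfold ell at hlt; push_cast at hlt ⊢; linarith)
    push_cast at this; linarith
  have base : ∀ z : ℕ, (A + st Z).card + z * (st Z).card ≤ (A + st Z + noise n 2).card →
      (2 * l + g + 3) * t + (2 * l + g + 1) * (e + z) ≤ d + (2 * l + g + 1) := by
    intro z hz
    refine Nat.le_of_mul_le_mul_left ?_ hh
    have : (2 * l + g + 1) * ((A + st Z).card + z * (st Z).card + e * (st Z).card)
        ≤ (2 * l + g + 1) * (A + st Z + C).card := Nat.mul_le_mul_left _ (by omega)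
    rw [ht] at this k1
    linarith
  have b1 := base 1 (by omega)
  have hAt : (A.card : ℤ) ≤ (st Z).card * t := by exact_mod_cast ht ▸ hAP
  have hnz : (n : ℤ) = (st Z).card * d := by exact_mod_cast hd
  by_cases hI : ∀ x ∈ A + st Z + noise n 2, x ∉ A + st Z → x - b ∈ st Z
  swap
  · push Not at hI
    obtain ⟨b', q1, q2, q3⟩ := hI
    have pU : st Z ⊆ st ((A + st Z) ∪ cs b (st Z)) := by
      intro u hu
      refine mem_st.2 (fun x hx => ?_)
      rcases mem_union.1 hx with h | h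
      · exact mem_union_left _ (mem_st.1 (pP hu) x h)
      · exact mem_union_right _ (mem_cs.2 (by rw [add_sub_assoc]; exact add_st hu (mem_cs.1 h)))
    have u1 := two Z _ _ pP pU subset_union_left (b := b)
      (mem_union_right _ (mem_cs.2 (by simpa using zero_st Z))) i2
    have u2 := two Z _ _ pU pQ (union_subset P1 (fun x hx => mv hb2 (pQ (mem_cs.1 hx)))) q1
      (by rw [mem_union, mem_cs]; tauto)
    have b2 := base 2 (by omega)
    have b3 : ((2 * l + g + 3) * t + (2 * l + g + 1) * (e + 1) : ℤ) ≤ d := by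
      have : (2 * l + g + 3) * t + (2 * l + g + 1) * (e + 1) ≤ d := by linarith
      exact_mod_cast this
    have b4 := mul_le_mul_of_nonneg_left b3 (show (0 : ℤ) ≤ (st Z).card by positivity)
    have b5 : (1 : ℤ) ≤ (st Z).card := by exact_mod_cast hh
    have b6 := mul_le_mul_of_nonneg_right b5
      (show (0 : ℤ) ≤ (2 * l + g + 1) * (e + 1) by positivity)
    have b7 := mul_le_mul_of_nonneg_right hAt (show (0 : ℤ) ≤ 2 * l + g + 3 by positivity)
    have : ((Nat.gcd n (l + 1 + g + 1 - (l + 1)) : ℕ) : ℤ) ≤ g + 1 := by exact_mod_cast hδ2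
    have hl0 : (0 : ℤ) ≤ l := by positivity
    linarith
  obtain ⟨j, j1, j2⟩ : ∃ j : ℕ, (∀ i ≤ j, b - 1 - (i : ℕ) ∈ A + st Z) ∧
      b - 1 - (j + 1 : ℕ) ∉ A + st Z := by
    obtain ⟨j, j1, j2⟩ := exit (-(A + st Z)) (x := 1 - b) (y := -y)
      (by rw [mem_neg']; convert hb1 using 1; ring) (by rw [mem_neg', neg_neg]; exact hy1)
    refine ⟨j, fun i hi => ?_, fun h => j2 ?_⟩
    · have := mem_neg'.1 (j1 i hi)
      convert this using 1; ring
    · rw [mem_neg']; convert h using 1; ring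
  have cov : A + st Z ⊆ (range (j + 1)).biUnion (fun i => cs (b - 1 - (i : ℕ)) (st Z)) := by
    intro x hx
    obtain ⟨i, s1, s2⟩ := exit _ hx hy1
    have s3 := hI _ (P2 _ (s1 i le_rfl)) (by rw [add_assoc]; exact_mod_cast s2)
    refine mem_biUnion.2 ⟨i, mem_range.2 ?_, mem_cs.2 (by convert s3 using 1; ring)⟩
    by_contra hij
    obtain ⟨p, rfl⟩ : ∃ p, i = j + 1 + p := ⟨i - (j + 1), by omega⟩
    refine j2 (mv (s1 p (by omega)) (pP ?_))
    convert neg_st s3 using 1
    push_cast; ring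
  have ht2 : t ≤ j + 1 := by
    have := (card_le_card cov).trans card_biUnion_le
    simp only [card_cs, sum_const, card_range, smul_eq_mul] at this
    rw [ht, mul_comm] at this
    exact Nat.le_of_mul_le_mul_right this hh
  have ht0 : t ≠ 0 := by
    rintro rfl
    have := card_pos.2 (show (A + st Z).Nonempty from ⟨x0, hx0⟩)
    omega
  obtain ⟨t, rfl⟩ := Nat.exists_eq_succ_of_ne_zero ht0
  obtain ⟨a, ha⟩ : ∃ a : ℕ, (a : ZMod n) = b - 1 - (t : ℕ) := ⟨_, ZMod.natCast_zmod_val _⟩
  have RA := reach Z A a t (by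
    intro i hi
    obtain ⟨p, rfl⟩ : ∃ p, t = i + p := ⟨t - i, by omega⟩
    obtain ⟨x, hx, u, hu, hxu⟩ := mem_add.1 (j1 p (by omega))
    refine ⟨x, hx, ?_⟩
    convert neg_st hu using 1
    rw [ha]; push_cast; linear_combination hxu)
  have RC := reach Z C 0 (e + 1) (fun i hi =>
    ⟨i, mem_image.2 ⟨i, mem_range.2 (by omega), rfl⟩, by simpa using zero_st Z⟩)
  have hd0 : 0 < d := Nat.pos_of_ne_zero (fun h => NeZero.ne n (by rw [hd, h, mul_zero]))
  obtain ⟨N, hN⟩ : ∃ N : ℕ, N = (g + 1) * a + (l + 1 + g + 1) * t + (l + 1 + g) * (e + 1) :=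
    ⟨_, rfl⟩
  have hdm := Nat.div_add_mod N d
  have hq : (l + 1 + g + 1) * t + (l + 1 + g) * (e + 1) + (l + 1) * t + l * (e + 1) < N % d := by
    by_contra hq
    obtain ⟨w1, w2, w3, w4, c1, c2, c3, c4, c5⟩ : ∃ w1 w2 w3 w4 : ℕ, w1 ≤ (l + 1 + g + 1) * t ∧
        w2 ≤ (l + 1 + g) * (e + 1) ∧ w3 ≤ (l + 1) * t ∧ w4 ≤ l * (e + 1) ∧
        w1 + w2 + N % d = (l + 1 + g + 1) * t + (l + 1 + g) * (e + 1) + w3 + w4 := by
      generalize (l + 1 + g + 1) * t = u1 at *
      generalize (l + 1 + g) * (e + 1) = u2 at *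
      generalize (l + 1) * t = u3 at *
      generalize l * (e + 1) = u4 at *
      generalize N % d = q at *
      exact ⟨u1 - q, u2 - (q - u1), min (q - u1 - u2) u3, q - u1 - u2 - u3, by omega, by omega,
        by omega, by omega, by omega⟩
    obtain ⟨x1, m1, n1⟩ := RA _ w1 c1
    obtain ⟨x2, m2, n2⟩ := RC _ w2 c2
    obtain ⟨x3, m3, n3⟩ := RA _ w3 c3
    obtain ⟨x4, m4, n4⟩ := RC _ w4 c4
    have mz : x1 + x2 + -(x3 + x4) ∈ Z := by
      rw [hZ]; exact add_mem_add (add_mem_add m1 m2) (neg_mem_neg (add_mem_add m3 m4))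
    have md := dmem Z d hd (N / d : ℕ)
    refine h0 (mv mz ?_)
    have := sub_st (sub_st (add_st n3 n4) (add_st n1 n2)) md
    convert this using 1
    have c6 : (g + 1) * a + w1 + w2 = d * (N / d) + w3 + w4 := by omega
    have c7 := congrArg (fun z : ℕ => (z : ZMod n)) c6
    simp only [Nat.cast_add, Nat.cast_mul, Nat.cast_one] at c7
    simp only [Int.cast_mul, Int.cast_natCast, Nat.cast_add, Nat.cast_one]
    linear_combination (-1) * c7
  exact arith n l g e _ d t _ _ a _ hh hd b1 (by exact_mod_cast hAt) hδ hδ2 r1 a1 hq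
    (Nat.mod_lt N hd0) (hdm.trans hN)

lemma up {n : ℕ} (S : Finset (ZMod n)) (a : ZMod n) (t : ℕ)
    (h : ∀ x ∈ S, ∃ i : ℕ, i ≤ t ∧ x = a + i) (j : ℕ) :
    ∀ x ∈ pw S j, ∃ w : ℕ, w ≤ j * t ∧ x = j * a + w := by
  induction j with
  | zero => intro x hx; exact ⟨0, by simp, by simpa [pw] using hx⟩
  | succ j ih =>
    intro x hx
    obtain ⟨y, hy, z, hz, rfl⟩ := mem_add.1 hx
    obtain ⟨w, hw, rfl⟩ := ih y hy
    obtain ⟨i, hi, rfl⟩ := h z hz
    exact ⟨w + i, by rw [add_mul, one_mul]; omega, by push_cast; ring⟩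

theorem result (n k l c : ℕ) [NeZero n] (hl : 1 ≤ l) (hk : l < k) (hc : 2 ≤ c) :
    IsGreatest {m : ℤ | ∃ A : Finset (ZMod n),
      Disjoint (pw A k + pw (noise n c) (k - 1)) (pw A l + pw (noise n c) (l - 1)) ∧
      m = A.card} (max 0 (ell n k l c)) := by
  refine ⟨?_, by rintro m ⟨A, hA, rfl⟩; exact upper n k l c hl hk hc A hA⟩
  obtain ⟨e, rfl⟩ : ∃ e, c = e + 2 := ⟨c - 2, by omega⟩
  obtain ⟨l, rfl⟩ : ∃ e, l = e + 1 := ⟨l - 1, by omega⟩
  obtain ⟨g, rfl⟩ : ∃ e, k = l + 1 + e + 1 := ⟨k - l - 2, by omega⟩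
  rcases le_or_gt (ell n (l + 1 + g + 1) (l + 1) (e + 2)) 0 with h0 | h0
  · exact ⟨∅, by simp [pw], by simp [h0]⟩
  obtain ⟨t, ht⟩ : ∃ t : ℕ, ell n (l + 1 + g + 1) (l + 1) (e + 2) = t + 1 :=
    ⟨(ell n (l + 1 + g + 1) (l + 1) (e + 2) - 1).toNat, by omega⟩
  have hm : (0 : ℤ) < ((l + 1 + g + 1 : ℕ) : ℤ) + ((l + 1 : ℕ) : ℤ) := by positivity
  have hg : l + 1 + g + 1 - (l + 1) = g + 1 := by omega
  have hδ : (0 : ℤ) < (Nat.gcd n (g + 1) : ℕ) := by
    exact_mod_cast Nat.gcd_pos_of_pos_right _ (by omega)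
  have hδ2 : ((Nat.gcd n (g + 1) : ℕ) : ℤ) ≤ g + 1 := by
    exact_mod_cast Nat.le_of_dvd (by omega) (Nat.gcd_dvd_right _ _)
  have r0 : 0 ≤ res n (l + 1 + g + 1) (l + 1) (e + 2) := by
    unfold res; rw [hg]; exact Int.emod_nonneg _ hδ.ne'
  have a1 : ((t : ℤ) + 1 + e) * (2 * l + g + 3)
      ≤ n + 2 * e - res n (l + 1 + g + 1) (l + 1) (e + 2) := by
    have := (Int.le_ediv_iff_mul_le hm).1 (show (t : ℤ) + 1 + e ≤ ((n : ℤ) + 2 * ((e + 2 : ℕ) - 2) -
      res n (l + 1 + g + 1) (l + 1) (e + 2)) / _ by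
        unfold ell at ht; push_cast at ht ⊢; linarith)
    push_cast at this; linarith
  have hl0 : (0 : ℤ) ≤ l := by positivity
  obtain ⟨V, hV⟩ : ∃ V : ℤ, V = -((l + 1 + g + 1 : ℕ) : ℤ) * (t + 1)
    - (((l + 1 + g + 1 : ℕ) : ℤ) - 1) * (((e + 2 : ℕ) : ℤ) - 2) := ⟨_, rfl⟩
  have q0 := Int.emod_nonneg V hδ.ne'
  have q1 := Int.emod_lt_of_pos V hδ
  have q2 : V % (Nat.gcd n (g + 1) : ℕ) + ((t : ℤ) + 1 + e) * (2 * l + g + 3) ≤ n + 2 * e := by
    rcases le_or_gt (((t : ℤ) + 1 + e + 1) * (2 * l + g + 3)) (n + 2 * e) with h | h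
    · linarith
    · have hchi : chi n (l + 1 + g + 1) (l + 1) (e + 2) = t + 1 := by
        have : ((n : ℤ) + 2 * ((e + 2 : ℕ) - 2)) / (((l + 1 + g + 1 : ℕ) : ℤ) + ((l + 1 : ℕ) : ℤ))
            = t + 1 + e := by
          apply le_antisymm
          · apply Int.le_of_lt_add_one
            rw [Int.ediv_lt_iff_lt_mul hm]
            push_cast; linarith
          · rw [Int.le_ediv_iff_mul_le hm]
            push_cast; linarith
        unfold chi
        rw [this]; push_cast; ring
      have : res n (l + 1 + g + 1) (l + 1) (e + 2) = V % (Nat.gcd n (g + 1) : ℕ) := by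
        unfold res; rw [hchi, hg, hV]
      linarith
  have bz := Nat.gcd_eq_gcd_ab n (g + 1)
  have dm := Int.emod_def V (Nat.gcd n (g + 1) : ℕ)
  generalize V % (Nat.gcd n (g + 1) : ℕ) = q at *
  generalize V / (Nat.gcd n (g + 1) : ℕ) = y at *
  obtain ⟨a, ha⟩ : ∃ a : ℤ, a = Nat.gcdB n (g + 1) * y := ⟨_, rfl⟩
  have p1 : (0 : ℤ) ≤ (t + 1) * (2 * l + g + 2) := by positivity
  have p2 : (0 : ℤ) ≤ e * (2 * l + g + 1) := by positivity
  refine ⟨(range (t + 1)).image (fun i : ℕ => (a : ZMod n) + (i : ZMod n)), ?_, ?_⟩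
  · simp only [Nat.add_sub_cancel]
    have UA := up ((range (t + 1)).image (fun i : ℕ => (a : ZMod n) + (i : ZMod n))) a t (by
      intro x hx
      obtain ⟨i, hi, rfl⟩ := mem_image.1 hx
      exact ⟨i, by have := mem_range.1 hi; omega, rfl⟩)
    have UC := up (noise n (e + 2)) 0 (e + 1) (by
      intro x hx
      obtain ⟨i, hi, rfl⟩ := mem_image.1 hx
      exact ⟨i, by have := mem_range.1 hi; omega, by simp⟩)
    refine disjoint_left.2 (fun x hx hx' => ?_)
    obtain ⟨x1, m1, x2, m2, rfl⟩ := mem_add.1 hx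
    obtain ⟨x3, m3, x4, m4, e1⟩ := mem_add.1 hx'
    obtain ⟨w1, c1, rfl⟩ := UA _ _ m1
    obtain ⟨w2, c2, rfl⟩ := UC _ _ m2
    obtain ⟨w3, c3, rfl⟩ := UA _ _ m3
    obtain ⟨w4, c4, rfl⟩ := UC _ _ m4
    have e2 : (((w3 + w4 : ℤ) - ((g + 1) * a + w1 + w2) : ℤ) : ZMod n) = 0 := by
      push_cast at e1 ⊢; linear_combination e1
    obtain ⟨z, hz⟩ := (ZMod.intCast_zmod_eq_zero_iff_dvd _ _).1 e2
    have d1 : (n : ℤ) ∣ q + ((l + 1 + g + 1) * t + (l + 1 + g) * (e + 1)) + 1 - w1 - w2 + w3 + w4 := by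
      refine ⟨z - Nat.gcdA n (g + 1) * y, ?_⟩
      push_cast at bz hV
      linear_combination hz + dm + hV - y * bz + (g + 1 : ℤ) * ha
    have c1' : (w1 : ℤ) ≤ (l + 1 + g + 1) * t := by exact_mod_cast c1
    have c2' : (w2 : ℤ) ≤ (l + 1 + g) * (e + 1) := by exact_mod_cast c2
    have c3' : (w3 : ℤ) ≤ (l + 1) * t := by exact_mod_cast c3
    have c4' : (w4 : ℤ) ≤ l * (e + 1) := by exact_mod_cast c4
    have n1 : (0 : ℤ) ≤ w1 := by positivity
    have n2 : (0 : ℤ) ≤ w2 := by positivity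
    have n3 : (0 : ℤ) ≤ w3 := by positivity
    have n4 : (0 : ℤ) ≤ w4 := by positivity
    have := Int.le_of_dvd (by linarith) d1
    linarith
  · have tn : t + 1 ≤ n := by
      have : (t : ℤ) + 1 ≤ n := by linarith
      exact_mod_cast this
    rw [card_image_of_injOn, card_range, ht, max_eq_right (by positivity)]
    · push_cast; rfl
    · intro i hi j hj hij
      have h1 := congrArg ZMod.val (add_left_cancel hij)
      simp only [coe_range, Set.mem_Iio] at hi hj
      rwa [ZMod.val_natCast, ZMod.val_natCast, Nat.mod_eq_of_lt (by omega),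
        Nat.mod_eq_of_lt (by omega)] at h1

end Pool.Agent.Results.MP_4e78b4_co.Full
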